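import Pool.Agent.TH826.SX.Final
import Pool.Agent.TH826.SX.Smooth
set_option autoImplicit false

/-!
The value of the leading determinant.
-/

namespace Pool.Agent.X321.BL

open Pool.Agent.TH826.SX

section A

variable {d : ℕ}

/-- the matrix with an additional column of ones -/
noncomputable def aug (z : Fin (d + 2) → Fin (d + 1) → ℝ) : Matrix (Fin (d + 2)) (Fin (d + 2)) ℝ :=
  Matrix.of fun k => Fin.cons 1 (z k)

theorem det_aug (z : Fin (d + 2) → Fin (d + 1) → ℝ) : (aug z).det = (dif z).det := by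
  set c : Fin (d + 2) → ℝ := Fin.cons 0 fun _ => -1 with hc
  set A : Matrix (Fin (d + 2)) (Fin (d + 2)) ℝ :=
    Matrix.of fun i j => aug z i j + c i * aug z 0 j with hA
  have h1 : A.det = (aug z).det :=
    Matrix.det_eq_of_forall_row_eq_smul_add_const c 0 (by simp [hc]) fun i j => rfl
  rw [← h1, Matrix.det_succ_column_zero, Fin.sum_univ_succ]
  have h2 : ∀ i : Fin (d + 1), A i.succ 0 = 0 := by
    intro i
    simp [hA, hc, aug]
  have h3 : A 0 0 = 1 := by simp [hA, hc, aug]
  have h4 : A.submatrix (Fin.succAbove 0) Fin.succ = dif z := by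
    ext i j
    simp [hA, hc, aug, dif]
    ring
  rw [Finset.sum_eq_zero fun i _ => by rw [h2 i, mul_zero, zero_mul], h3, h4]
  simp

theorem det_vrow : (Matrix.of (vrow d)).det = 1 := by
  rw [Matrix.det_of_isUpperTriangular, Finset.prod_eq_one]
  · intro i _
    refine Fin.cases ?_ (fun i => ?_) i
    · simp [vrow]
    · simp [vrow]
  · intro i j hij
    have hij' : j < i := hij
    rcases Fin.eq_zero_or_eq_succ i with rfl | ⟨i, rfl⟩
    · exact absurd hij' (Fin.not_lt_zero j)
    · simp only [Matrix.of_apply, vrow, Fin.cons_succ]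
      exact Pi.single_eq_of_ne hij'.ne _

theorem abs_det_dif_row (k0 : Fin (d + 2)) : |(dif (row k0)).det| = 1 := by
  rw [← det_aug, Matrix.det_succ_row _ k0, Fin.sum_univ_succ]
  have h1 : ∀ j : Fin (d + 1), aug (row k0) k0 j.succ = 0 := by
    intro j
    simp [aug, row_same]
  have h2 : aug (row k0) k0 0 = 1 := by simp [aug]
  have h3 : (aug (row k0)).submatrix k0.succAbove (Fin.succAbove 0) = Matrix.of (vrow d) := by
    ext i j
    simp [aug, row_succAbove]
  rw [Finset.sum_eq_zero fun j _ => by rw [h1 j, mul_zero, zero_mul], h2, h3, det_vrow]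
  simp [abs_pow]

end A

section B

variable {d : ℕ} {r : Fin (d + 2) → ℕ}

theorem abs_det_lead (r : Fin (d + 2) → ℕ) :
    |(lead r).det| = ((2 * Real.pi) ^ d) ^ Fintype.card (Ix r) := by
  classical
  have hdiag : ∀ J, |lead r J J| = (2 * Real.pi) ^ d := by
    intro J
    unfold lead
    rw [Matrix.of_apply]
    have e : (fun k => rowJ (fst0 J) J.1 k (J.1 k)) = row (fst0 J) := by
      funext k
      unfold rowJ
      rw [if_pos rfl]
    rw [e, abs_mul, abs_det_dif_row, mul_one, abs_of_nonneg (by positivity)]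
  have hoff : ∀ J I : Ix r, I ≠ J → fst0 I ≤ fst0 J → lead r J I = 0 := by
    intro J I hIJ hle
    by_cases hk : ∀ k, k ≠ fst0 J → I.1 k = J.1 k
    · exact absurd (fst0_lt hIJ hk) (not_lt.2 hle)
    · push Not at hk
      obtain ⟨k, hk1, hk2⟩ := hk
      unfold lead
      rw [Matrix.of_apply, det_dif_zero _ hk1.symm, mul_zero]
      · unfold rowJ
        rw [row_same, ite_self]
      · unfold rowJ
        rw [if_neg hk2]
  have htri : (lead r).BlockTriangular fst0 := fun J I h =>
    hoff J I (fun e => absurd h (by rw [e]; exact lt_irrefl _)) h.le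
  rw [htri.det, Finset.abs_prod]
  have hblock : ∀ k, |((lead r).toSquareBlock fst0 k).det| =
      ((2 * Real.pi) ^ d) ^ Fintype.card {J : Ix r // fst0 J = k} := by
    intro k
    have hd : (lead r).toSquareBlock fst0 k = Matrix.diagonal fun J => lead r J.1 J.1 := by
      ext J I
      rw [Matrix.toSquareBlock_def, Matrix.of_apply, Matrix.diagonal_apply]
      by_cases h : J = I
      · rw [if_pos h, h]
      · rw [if_neg h]
        exact hoff _ _ (fun e => h (Subtype.ext e.symm)) (by rw [I.2, J.2])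
    rw [hd, Matrix.det_diagonal, Finset.abs_prod, Finset.prod_congr rfl fun J _ => hdiag J.1,
      Finset.prod_const, Finset.card_univ]
  rw [Finset.prod_congr rfl fun k _ => hblock k, Finset.prod_pow_eq_pow_sum]
  congr 1
  have : Fintype.card (Ix r) = ∑ k, Fintype.card {J : Ix r // fst0 J = k} := by
    rw [← Fintype.card_sigma]
    exact Fintype.card_congr (Equiv.sigmaFiberEquiv fst0).symm
  rw [this]
  refine Finset.sum_subset (Finset.subset_univ _) fun k _ hk => ?_
  rw [Fintype.card_eq_zero_iff]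
  refine ⟨fun J => hk ?_⟩
  rw [Finset.mem_image]
  exact ⟨J.1, Finset.mem_univ _, J.2⟩

theorem card_Ix (r : Fin (d + 2) → ℕ) :
    Fintype.card (Ix r) = ∏ k, (r k + 1) - ∏ k, r k := by
  classical
  have h1 : Fintype.card (∀ k, Fin (r k + 1)) = ∏ k, (r k + 1) := by simp
  have h2 : Fintype.card {i : ∀ k, Fin (r k + 1) // ¬ ∃ k, i k = 0} = ∏ k, r k := by
    have e : {i : ∀ k, Fin (r k + 1) // ¬ ∃ k, i k = 0} ≃ ∀ k, Fin (r k) :=
      { toFun := fun i k => (i.1 k).pred fun h => i.2 ⟨k, h⟩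
        invFun := fun j => ⟨fun k => (j k).succ, fun ⟨k, hk⟩ => Fin.succ_ne_zero _ hk⟩
        left_inv := fun i => by
          refine Subtype.ext (funext fun k => ?_)
          simp
        right_inv := fun j => by
          funext k
          simp }
    rw [Fintype.card_congr e]
    simp
  have h3 := Fintype.card_subtype_compl fun i : ∀ k, Fin (r k + 1) => ∃ k, i k = 0
  have h4 := Fintype.card_subtype_le fun i : ∀ k, Fin (r k + 1) => ∃ k, i k = 0
  rw [h1] at h3 h4
  rw [h2] at h3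
  show Fintype.card {i : ∀ k, Fin (r k + 1) // ∃ k, i k = 0} = _
  omega

end B


section C

open Pool.Agent.TH826.MK (symb Torus)

variable {K : Type*} [Field K] {d : ℕ} {r : Fin (d + 2) → ℕ}

/-- continuity of the determinant -/
theorem abs_det_near {ι : Type*} [Fintype ι] [DecidableEq ι] (A : Matrix ι ι ℝ) {ε : ℝ}
    (hε : 0 < ε) : ∃ δ : ℝ, 0 < δ ∧ ∀ M : Matrix ι ι ℝ, (∀ i j, |M i j - A i j| < δ) →
      |M.det - A.det| < ε := by
  have hc : Continuous fun M : ι → ι → ℝ => (Matrix.of M).det :=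
    Continuous.matrix_det continuous_id
  obtain ⟨δ, hδ, h⟩ := Metric.continuous_iff.1 hc (fun i j => A i j) ε hε
  refine ⟨δ, hδ, fun M hM => ?_⟩
  have h2 : dist (fun i j => M i j) (fun i j => A i j) < δ := by
    rw [dist_pi_lt_iff hδ]
    intro i
    rw [dist_pi_lt_iff hδ]
    intro j
    rw [Real.dist_eq]
    exact hM i j
  exact h _ h2

theorem exists_tori_limit (σ : K →+* ℂ) (a : ∀ k, Fin (r k + 1) → K)
    (ha : ∀ k, Function.Injective (a k))
    (hgen : ∀ i : ∀ k, Fin (r k + 1), ∑ k, a k (i k) ≠ 0) {ε : ℝ} (hε : 0 < ε) :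
    ∃ c : ℝ, 1 ≤ c ∧ ∀ lam : K, c ≤ ‖σ lam‖ →
      ∃ Γ : Ix r → Torus (SRing lam a) d,
        (∀ t θ x, (Γ t).e θ (spol lam a (MvPolynomial.C x)) = σ x) ∧
        |(|(Matrix.of fun t i : Ix r => (Γ t).reg (symb (sent lam a i.1))).det| /
          ((2 * Real.pi) ^ d * Real.log ‖σ lam‖) ^ (∏ k, (r k + 1) - ∏ k, r k)) - 1| ≤ ε := by
  classical
  have hpi : 0 < ((2 * Real.pi) ^ d) ^ Fintype.card (Ix r) := by positivity
  obtain ⟨δ, hδ, hdet⟩ := abs_det_near (lead r)
    (ε := ε * ((2 * Real.pi) ^ d) ^ Fintype.card (Ix r)) (by positivity)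
  choose Λ hΛ1 hΛ using fun J : Ix r =>
    exists_torus σ a ha hgen (fst0 J) J.1 (ε := δ / 2) (by linarith)
  set c : ℝ := ∑ J, |Λ J| + 2 with hc
  have hsum : 0 ≤ ∑ J, |Λ J| := Finset.sum_nonneg fun J _ => abs_nonneg _
  have hΛc : ∀ J, Λ J ≤ c := by
    intro J
    have h1 := Finset.single_le_sum (f := fun J => |Λ J|) (fun J _ => abs_nonneg _)
      (Finset.mem_univ J)
    have h2 := le_abs_self (Λ J)
    have h3 : |Λ J| ≤ ∑ J, |Λ J| := h1
    linarith
  refine ⟨c, by linarith, fun lam hlam => ?_⟩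
  choose Γ hΓ1 hΓ2 using fun J => hΛ J lam ((hΛc J).trans hlam)
  refine ⟨Γ, hΓ1, ?_⟩
  have hl : 0 < Real.log ‖σ lam‖ := Real.log_pos (by linarith)
  have hs : -Real.log ‖σ lam‖ ≠ 0 := by linarith
  set s : ℝ := -Real.log ‖σ lam‖ with hsdef
  set M : Matrix (Ix r) (Ix r) ℝ :=
    Matrix.of fun t i : Ix r => (Γ t).reg (symb (sent lam a i.1)) / s with hM
  have h1 : |M.det - (lead r).det| < ε * ((2 * Real.pi) ^ d) ^ Fintype.card (Ix r) := by
    refine hdet _ fun J I => ?_
    rw [hM, Matrix.of_apply]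
    unfold lead
    rw [Matrix.of_apply]
    exact (hΓ2 J I.1).trans_lt (by linarith)
  have h2 : (Matrix.of fun t i : Ix r => (Γ t).reg (symb (sent lam a i.1))) = s • M := by
    ext J I
    rw [Matrix.smul_apply, hM, Matrix.of_apply, Matrix.of_apply, smul_eq_mul]
    field_simp
  have h3 : |s| = Real.log ‖σ lam‖ := by rw [hsdef, abs_neg, abs_of_pos hl]
  rw [h2, Matrix.det_smul, abs_mul, abs_pow, h3, ← card_Ix, mul_pow]
  have hlp : 0 < Real.log ‖σ lam‖ ^ Fintype.card (Ix r) := by positivity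
  have h4 : Real.log ‖σ lam‖ ^ Fintype.card (Ix r) * |M.det| /
      (((2 * Real.pi) ^ d) ^ Fintype.card (Ix r) * Real.log ‖σ lam‖ ^ Fintype.card (Ix r)) =
      |M.det| / ((2 * Real.pi) ^ d) ^ Fintype.card (Ix r) := by
    field_simp
  rw [h4]
  have h5 : |M.det| / ((2 * Real.pi) ^ d) ^ Fintype.card (Ix r) - 1 =
      (|M.det| - |(lead r).det|) / ((2 * Real.pi) ^ d) ^ Fintype.card (Ix r) := by
    rw [abs_det_lead, sub_div, div_self hpi.ne']
  rw [h5, abs_div, abs_of_pos hpi, div_le_iff₀ hpi]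
  exact (abs_abs_sub_abs_le _ _).trans h1.le

end C

end Pool.Agent.X321.BL
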