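import Pool.Agent.Y775.SN.Unr
import Pool.Agent.Y797.IV.Unr
import Pool.Agent.X321.BL.Limit
set_option autoImplicit false

/-!
The limit of the regulator matrix of the simplex fibrations.
-/

namespace Pool.Agent.X321.BL

open Pool.Agent.TH690.SF
open Pool.Agent.TH826.GA
open Pool.Agent.TH826.DC (det_RM)
open Pool.Agent.TH826.MK (symb Torus)

variable {K : Type*} [Field K] {d m : ℕ} {c : Fin (m + 1) → Fin (d + 1) → K} {a : Fin (m + 1) → K}

theorem exists_tori_fib {q : ℕ} (w : Fin q → ℕ) (σ : K →+* ℂ)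
    (hdet : ∀ T : Fin (d + 1) → Fin (m + 1), Function.Injective T → (cm c T).det ≠ 0)
    (hgen : ∀ S : Fin (d + 2) → Fin (m + 1), Function.Injective S → ∀ x : Fin (d + 1) → K,
      ∃ i, ∑ j, c (S i) j * x j ≠ a (S i)) {ε : ℝ} (hε : 0 < ε) :
    ∃ C : ℝ, 1 < C ∧ ∀ lam : K, C ≤ ‖σ lam‖ →
      ∃ Γ : {s : Finset (Fin m) // s.card = d + 1} → Torus (SOpen w lam c a) (d + 1 + q),
        (∀ t θ x, (Γ t).e θ (scst w lam c a x) = σ x) ∧
        (∀ t i, |(Γ t).reg (symb (sent w lam c a (splx i))) /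
          ((2 * Real.pi) ^ (d + 1 + q) * Real.log ‖σ lam‖) - if t = i then 1 else 0| ≤ ε) ∧
        |(Matrix.of fun t i : {s : Finset (Fin m) // s.card = d + 1} =>
          (Γ t).reg (symb (sent w lam c a (splx i)))).det /
            ((2 * Real.pi) ^ (d + 1 + q) * Real.log ‖σ lam‖) ^ m.choose (d + 1) - 1| ≤ ε := by
  classical
  set D0 : ℝ := (2 * Real.pi) ^ (d + 1 + q) with hD0
  have hD : 0 < D0 := by
    have := Real.pi_pos
    positivity
  obtain ⟨δ, hδ, hdet'⟩ := abs_det_near (1 : Matrix {s : Finset (Fin m) // s.card = d + 1}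
      {s : Finset (Fin m) // s.card = d + 1} ℝ) hε
  set η : ℝ := min (δ / 2) ε with hη
  have hηpos : 0 < η := lt_min (by linarith) hε
  choose Λ hΛ1 hΛ using fun t : {s : Finset (Fin m) // s.card = d + 1} =>
    exists_torus (w := w) (a := a) σ hdet hgen (vert_injective t) (ε := η * D0) (by positivity)
  set C : ℝ := ∑ t, |Λ t| + 2 with hC
  have hsum : 0 ≤ ∑ t, |Λ t| := Finset.sum_nonneg fun J _ => abs_nonneg _
  have hΛC : ∀ t, Λ t ≤ C := by
    intro t
    have h1 := Finset.single_le_sum (f := fun t => |Λ t|) (fun t _ => abs_nonneg _)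
      (Finset.mem_univ t)
    have h2 := le_abs_self (Λ t)
    have h3 : |Λ t| ≤ ∑ t, |Λ t| := h1
    linarith
  refine ⟨C, by linarith, fun lam hlam => ?_⟩
  choose Γ hΓ1 hΓ2 using fun t => hΛ t lam ((hΛC t).trans hlam)
  refine ⟨Γ, hΓ1, ?_⟩
  have hs : 0 < Real.log ‖σ lam‖ := Real.log_pos (by linarith)
  set s : ℝ := Real.log ‖σ lam‖ with hsdef
  have hent : ∀ t i, |(Γ t).reg (symb (sent w lam c a (splx i))) / (D0 * s) -
      if t = i then 1 else 0| ≤ η := by
    intro t i
    have h2 := hΓ2 t (splx i) (splx_injective i)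
    rw [det_RS, det_RM] at h2
    have e : (Γ t).reg (symb (sent w lam c a (splx i))) / (D0 * s) - (if t = i then 1 else 0) =
        ((Γ t).reg (symb (sent w lam c a (splx i))) / s - D0 * (if t = i then 1 else 0)) /
          D0 := by
      rw [sub_div, mul_div_cancel_left₀ _ hD.ne', div_div, mul_comm s D0]
    rw [e, abs_div, abs_of_pos hD, div_le_iff₀ hD]
    exact h2
  refine ⟨fun t i => (hent t i).trans (min_le_right _ _), ?_⟩
  set M : Matrix {s : Finset (Fin m) // s.card = d + 1} {s : Finset (Fin m) // s.card = d + 1} ℝ :=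
    Matrix.of fun t i => (Γ t).reg (symb (sent w lam c a (splx i))) / (D0 * s) with hM
  have h1 := hdet' M fun t i => by
    rw [hM, Matrix.of_apply, Matrix.one_apply]
    exact (hent t i).trans_lt ((min_le_left _ _).trans_lt (by linarith))
  have h2 : (Matrix.of fun t i : {s : Finset (Fin m) // s.card = d + 1} =>
      (Γ t).reg (symb (sent w lam c a (splx i)))) = (D0 * s) • M := by
    ext t i
    rw [Matrix.smul_apply, hM, Matrix.of_apply, Matrix.of_apply, smul_eq_mul]
    field_simp
  have hcard : Fintype.card {s : Finset (Fin m) // s.card = d + 1} = m.choose (d + 1) := by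
    rw [Fintype.card_finset_len, Fintype.card_fin]
  rw [h2, Matrix.det_smul, hcard, mul_div_cancel_left₀ _ (pow_ne_zero _ (by positivity))]
  rw [Matrix.det_one] at h1
  exact h1.le

end Pool.Agent.X321.BL
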