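import Pool.Agent.Y797.TP.Unr
import Pool.Agent.Y797.TP.Cone
set_option autoImplicit false

/-!
The limit of the regulator determinant at two places.
-/

namespace Pool.Agent.X321.BL

open Pool.Agent.Y797.TP

open Pool.Agent.TH826.MK (Torus)

open Pool.Agent.TH577.UA (yrow)

open MvPolynomial (C X)

theorem det_yrow_one (d : ℕ) : (Matrix.of (yrow 1 (fun _ : Fin d => 1))).det = 1 := by
  rw [Matrix.det_of_isUpperTriangular, Finset.prod_eq_one]
  · intro i _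
    refine Fin.cases ?_ (fun i => ?_) i
    · simp [yrow]
    · simp [yrow]
  · intro i j hij
    have hij' : j < i := hij
    rcases Fin.eq_zero_or_eq_succ i with rfl | ⟨i, rfl⟩
    · exact absurd hij' (Fin.not_lt_zero j)
    · simp only [Matrix.of_apply, yrow, Fin.cons_succ]
      exact Pi.single_eq_of_ne hij'.ne _

theorem cst_eq (d : ℕ) : cst d = (2 * Real.pi) ^ d := by
  unfold cst
  rw [det_yrow_one, mul_one]

/-- continuity of the determinant -/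
theorem lim_det (c : ℝ) {ε : ℝ} (hε : 0 < ε) : ∃ δ : ℝ, 0 < δ ∧ ∀ a b e f r : ℝ, |a - c| ≤ δ →
    |b| ≤ δ → |e - c| ≤ δ → |f| ≤ δ → |r + 1| ≤ δ → |(a * e - b * f) * r + c * c| ≤ ε := by
  have hc : Continuous fun p : ℝ × ℝ × ℝ × ℝ × ℝ =>
      (p.1 * p.2.2.1 - p.2.1 * p.2.2.2.1) * p.2.2.2.2 := by fun_prop
  obtain ⟨δ, hδ, h⟩ := Metric.continuous_iff.1 hc (c, 0, c, 0, -1) ε hε
  refine ⟨δ / 2, by linarith, fun a b e f r ha hb he hf hr => ?_⟩
  have h1 := h (a, b, e, f, r) (by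
    simp only [Prod.dist_eq, Real.dist_eq, sub_zero, sub_neg_eq_add]
    have h2 : δ / 2 < δ := by linarith
    exact max_lt (ha.trans_lt h2) (max_lt (hb.trans_lt h2) (max_lt (he.trans_lt h2)
      (max_lt (hf.trans_lt h2) (hr.trans_lt h2)))))
  rw [Real.dist_eq] at h1
  have e1 : (a * e - b * f) * r - (c * c - 0 * 0) * -1 = (a * e - b * f) * r + c * c := by ring
  simp only at h1
  rw [e1] at h1
  exact h1.le

section main

variable {K : Type*} [Field K] {s d : ℕ} {A : Pencil K s d}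

/-- Two places. -/
theorem exists_two_limit (hA : A.Valid) (σ τ : K →+* ℂ) {ε : ℝ} (hε : 0 < ε) :
    ∃ δ : ℝ, 0 < δ ∧ ∀ lam : K, lam ≠ 0 → ‖σ lam‖ < δ → δ⁻¹ < ‖τ lam‖ →
      ∃ Γ Δ : Torus (A.Open lam) d, (∀ θ x, Γ.e θ (A.toO lam (C x)) = σ x) ∧
        (∀ θ x, Δ.e θ (A.toO lam (C x)) = τ x) ∧
        |(Γ.reg (A.alpha lam) * Δ.reg (A.beta lam) - Γ.reg (A.beta lam) * Δ.reg (A.alpha lam)) /
          (Real.log ‖σ lam‖ * Real.log ‖τ lam‖) + (2 * Real.pi) ^ (2 * d)| ≤ ε := by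
  obtain ⟨δ0, hδ0, hdet⟩ := lim_det (cst d) hε
  obtain ⟨η1, h1, H1⟩ := exists_small hA σ hδ0
  obtain ⟨η2, h2, H2⟩ := exists_large hA τ hδ0
  have hk : 0 < ‖τ (kap A)‖ := norm_pos_iff.2 ((map_ne_zero τ).2 (kap_ne hA))
  set κ : ℝ := Real.log ‖τ (kap A)‖ with hκ
  set M : ℝ := |κ| / δ0 + 1 with hM
  have hMpos : 0 < M := by positivity
  refine ⟨min (min η1 (η2 * ‖τ (kap A)‖)) (Real.exp (-M)),
    lt_min (lt_min h1 (by positivity)) (Real.exp_pos _), fun lam hlam hs hl => ?_⟩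
  obtain ⟨hl1, Γ, hΓ, g1, g2⟩ := H1 lam hlam (hs.trans_le
    ((min_le_left _ _).trans (min_le_left _ _)))
  have h4 : 0 < ‖τ lam‖ := norm_pos_iff.2 ((map_ne_zero τ).2 hlam)
  have hpos : 0 < min (min η1 (η2 * ‖τ (kap A)‖)) (Real.exp (-M)) :=
    lt_min (lt_min h1 (by positivity)) (Real.exp_pos _)
  have hl3 : ‖(τ (lam * kap A))⁻¹‖ < η2 := by
    have h3 : (η2 * ‖τ (kap A)‖)⁻¹ < ‖τ lam‖ := by
      refine lt_of_le_of_lt ?_ hl
      exact inv_anti₀ hpos ((min_le_left _ _).trans (min_le_right _ _))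
    rw [map_mul, norm_inv, norm_mul, inv_lt_comm₀ (by positivity) h2]
    rw [mul_inv, ← div_eq_mul_inv, div_lt_iff₀ hk] at h3
    exact h3
  have hT : M < Real.log ‖τ lam‖ := by
    have h3 : (Real.exp (-M))⁻¹ < ‖τ lam‖ := by
      refine lt_of_le_of_lt ?_ hl
      exact inv_anti₀ hpos (min_le_right _ _)
    rw [← Real.exp_neg, neg_neg] at h3
    exact (Real.lt_log_iff_exp_lt h4).2 h3
  obtain ⟨hl2, Δ, hΔ, g3, g4⟩ := H2 lam hlam hl3
  refine ⟨Γ, Δ, hΓ, hΔ, ?_⟩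
  set S : ℝ := Real.log ‖σ lam‖ with hS
  set T : ℝ := Real.log ‖τ lam‖ with hTd
  set t : ℝ := Real.log ‖(τ (lam * kap A))⁻¹‖ with ht
  have hTpos : 0 < T := hMpos.trans hT
  have ht2 : t = -(T + κ) := by
    rw [ht, map_mul, norm_inv, norm_mul, Real.log_inv, Real.log_mul h4.ne' hk.ne']
  have hr : |t / T + 1| ≤ δ0 := by
    have e : t / T + 1 = -(κ / T) := by
      rw [ht2]
      field_simp
      ring
    rw [e, abs_neg, abs_div, abs_of_pos hTpos, div_le_iff₀ hTpos]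
    have h5 : |κ| / δ0 ≤ T := by
      rw [hM] at hT
      linarith
    rw [div_le_iff₀ hδ0] at h5
    linarith
  have h6 := hdet _ _ _ _ _ g1 g2 g3 g4 hr
  have e2 : (Γ.reg (A.alpha lam) / S * (Δ.reg (A.beta lam) / t) -
      Γ.reg (A.beta lam) / S * (Δ.reg (A.alpha lam) / t)) * (t / T) =
      (Γ.reg (A.alpha lam) * Δ.reg (A.beta lam) - Γ.reg (A.beta lam) * Δ.reg (A.alpha lam)) /
        (S * T) := by
    have hS0 : S ≠ 0 := hl1.ne
    have ht0 : t ≠ 0 := hl2.ne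
    field_simp
  rw [e2] at h6
  have e3 : cst d * cst d = (2 * Real.pi) ^ (2 * d) := by
    rw [cst_eq, two_mul d, pow_add]
  rwa [e3] at h6

end main

end Pool.Agent.X321.BL
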