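import Pool.Agent.TH265.U.Main
import Pool.Agent.X321.BL.Limit
set_option autoImplicit false

/-!
The limit of the regulator determinant over two places, for the curves defined by units.
-/

namespace Pool.Agent.X321.BL

open Pool.Agent.TH826.MK
open Pool.Agent.TH826.MH (wt abs_wt_le wt_self wt_ne)
open Pool.Agent.TH265.U

universe v

section A

/-- The determinant of a matrix which is triangular with respect to a height. -/
theorem det_of_height {ι : Type*} [Fintype ι] [DecidableEq ι] (A : Matrix ι ι ℝ) (h : ι → ℕ)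
    (hoff : ∀ t q, q ≠ t → h q ≤ h t → A t q = 0) : A.det = ∏ t, A t t := by
  have htri : A.BlockTriangular h := fun i j hij =>
    hoff i j (fun e => absurd hij (by rw [e]; exact lt_irrefl _)) hij.le
  rw [htri.det]
  have hblock : ∀ k, (A.toSquareBlock h k).det = ∏ J ∈ Finset.univ.filter (fun J => h J = k),
      A J J := by
    intro k
    have hd : A.toSquareBlock h k = Matrix.diagonal fun J => A J.1 J.1 := by
      ext J I
      rw [Matrix.toSquareBlock_def, Matrix.of_apply, Matrix.diagonal_apply]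
      by_cases hJI : J = I
      · rw [if_pos hJI, hJI]
      · rw [if_neg hJI]
        exact hoff _ _ (fun e => hJI (Subtype.ext e.symm)) (by rw [I.2, J.2])
    rw [hd, Matrix.det_diagonal]
    exact (Finset.prod_subtype (p := fun J => h J = k) (Finset.univ.filter fun J => h J = k)
      (fun J => by simp) (fun J => A J J)).symm
  rw [Finset.prod_congr rfl fun k _ => hblock k]
  exact Finset.prod_fiberwise_of_maps_to (fun i _ => Finset.mem_image_of_mem h (Finset.mem_univ i)) _

end A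

section B

/-- the main term at the first place, divided by the logarithm -/
noncomputable def mup (r t c : ℕ) : ℝ :=
  ∑ i : Fin (r + 1), max 0 ((c : ℝ) - (i : ℕ)) *
    ((if (i : ℕ) ≤ t then 1 else 0) - (if c ≤ t then 1 else 0))

/-- the main term at the second place, divided by the absolute value of the logarithm -/
noncomputable def mun (r t c : ℕ) : ℝ :=
  ∑ i : Fin (r + 1), max 0 (((i : ℕ) : ℝ) - c) *
    ((if t < (i : ℕ) then 1 else 0) - (if t < c then 1 else 0))

theorem Mt_pos' {u : ℂ} (hu : u ≠ 0) (hℓ : 0 < Real.log ‖u‖) (r t c : ℕ) :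
    Mt u r t c = Real.log ‖u‖ * mup r t c := by
  unfold Mt mup
  rw [Finset.mul_sum]
  refine Finset.sum_congr rfl fun i _ => ?_
  rw [wd_pow_of_pos hu hℓ, wd_pow_of_pos hu hℓ, ← mul_assoc, mul_max_of_nonneg _ _ hℓ.le, mul_zero,
    mul_comm (Real.log ‖u‖)]

theorem Mt_neg' {u : ℂ} (hu : u ≠ 0) (hℓ : Real.log ‖u‖ < 0) (r t c : ℕ) :
    Mt u r t c = |Real.log ‖u‖| * mun r t c := by
  unfold Mt mun
  rw [Finset.mul_sum]
  refine Finset.sum_congr rfl fun i _ => ?_
  rw [wd_pow_of_neg hu hℓ, wd_pow_of_neg hu hℓ, ← mul_assoc,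
    mul_max_of_nonneg _ _ (abs_nonneg _), mul_zero, abs_of_neg hℓ]
  congr 2
  ring

theorem sum_tri (a : ℕ) (b : ℝ) :
    ∑ i ∈ Finset.range a, (b - i) = a * b - a * (a - 1) / 2 := by
  induction a with
  | zero => simp
  | succ a ih =>
    rw [Finset.sum_range_succ, ih]
    push_cast
    ring

theorem mup_diag {r t : ℕ} (ht : t < r) : mup r t (t + 1) = ((t : ℝ) + 1) * (t + 2) / 2 := by
  unfold mup
  rw [Fin.sum_univ_eq_sum_range (fun i => max 0 (((t + 1 : ℕ) : ℝ) - (i : ℕ)) *
    ((if i ≤ t then (1 : ℝ) else 0) - (if t + 1 ≤ t then 1 else 0))) (r + 1)]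
  have h1 : ∑ i ∈ Finset.range (r + 1), max 0 (((t + 1 : ℕ) : ℝ) - (i : ℕ)) *
      ((if i ≤ t then (1 : ℝ) else 0) - (if t + 1 ≤ t then 1 else 0)) =
      ∑ i ∈ Finset.range (t + 1), (((t : ℝ) + 1) - i) := by
    symm
    apply Finset.sum_subset_zero_on_sdiff
    · intro i hi
      rw [Finset.mem_range] at hi ⊢
      omega
    · intro i hi
      rw [Finset.mem_sdiff, Finset.mem_range, Finset.mem_range] at hi
      rw [if_neg (by omega : ¬ i ≤ t), if_neg (by omega : ¬ t + 1 ≤ t), sub_zero, mul_zero]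
    · intro i hi
      rw [Finset.mem_range] at hi
      rw [if_pos (by omega : i ≤ t), if_neg (by omega : ¬ t + 1 ≤ t), sub_zero, mul_one,
        max_eq_right]
      · push_cast
        ring
      · have : (i : ℝ) ≤ ((t + 1 : ℕ) : ℝ) := by exact_mod_cast hi.le
        linarith
  rw [h1, sum_tri]
  push_cast
  ring

theorem mun_diag {r : ℕ} (hr : 1 ≤ r) : mun r (r - 1) 0 = r := by
  unfold mun
  rw [Finset.sum_eq_single (Fin.last r)]
  · rw [Fin.val_last, if_pos (by omega), if_neg (by omega), sub_zero, mul_one, max_eq_right]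
    · push_cast
      ring
    · push_cast
      have : (0 : ℝ) ≤ r := Nat.cast_nonneg r
      linarith
  · intro i _ hi
    have h1 : (i : ℕ) ≠ r := fun h => hi (Fin.ext (by rw [h, Fin.val_last]))
    have h2 := i.isLt
    rw [if_neg (by omega), if_neg (by omega), sub_zero, mul_zero]
  · intro h
    exact absurd (Finset.mem_univ _) h

end B

section C

/-- the matrix of the limits of the regulators divided by the logarithms -/
noncomputable def limM (p r : ℕ) : Matrix (Fin (r + 1) × Fin p) (Fin (r + 1) × Fin p) ℝ :=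
  Matrix.of fun t q => 2 * Real.pi * (wt t.2 q.2 *
    (if t.1 = 0 then mun r (r - 1) q.1 else mup r (lp t) q.1))

/-- the constant in the limit formula -/
noncomputable def cnt (r : ℕ) : ℝ := r * ∏ a : Fin r, (((a : ℕ) : ℝ) + 1) * ((a : ℕ) + 2) / 2

theorem lp_zero {p r : ℕ} (j : Fin p) : lp ((0 : Fin (r + 1)), j) = r - 1 := by
  unfold Pool.Agent.TH265.U.lp
  rw [if_pos rfl]

theorem lp_succ {p r : ℕ} (a : Fin r) (j : Fin p) : lp (a.succ, j) = a := by
  unfold Pool.Agent.TH265.U.lp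
  rw [if_neg (Fin.succ_ne_zero a)]
  simp

theorem mup_eq_zero {r t c : ℕ} (h : c ≤ t) : mup r t c = 0 := by
  unfold mup
  refine Finset.sum_eq_zero fun i _ => ?_
  rw [if_pos h]
  by_cases hi : (i : ℕ) ≤ t
  · rw [if_pos hi, sub_self, mul_zero]
  · have : (c : ℝ) ≤ (i : ℕ) := by exact_mod_cast (h.trans (Nat.le_of_lt (Nat.lt_of_not_le hi)))
    rw [max_eq_left (by linarith), zero_mul]

theorem det_limM (p r : ℕ) (hr : 1 ≤ r) :
    (limM p r).det = ((2 * Real.pi) ^ (r + 1) * cnt r) ^ p := by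
  rw [det_of_height (limM p r) (fun q => (q.1 : ℕ) + (p - (q.2 : ℕ)))]
  · rw [Fintype.prod_prod_type, Fin.prod_univ_succ]
    have h0 : ∀ j : Fin p, limM p r (0, j) (0, j) = 2 * Real.pi * r := by
      intro j
      unfold limM
      rw [Matrix.of_apply, if_pos rfl, wt_self, one_mul]
      show 2 * Real.pi * mun r (r - 1) ((0 : Fin (r + 1)) : ℕ) = _
      rw [Fin.val_zero, mun_diag hr]
    have h1 : ∀ (a : Fin r) (j : Fin p), limM p r (a.succ, j) (a.succ, j) =
        2 * Real.pi * ((((a : ℕ) : ℝ) + 1) * ((a : ℕ) + 2) / 2) := by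
      intro a j
      unfold limM
      rw [Matrix.of_apply, if_neg (Fin.succ_ne_zero a), wt_self, one_mul, lp_succ]
      show 2 * Real.pi * mup r a ((a.succ : Fin (r + 1)) : ℕ) = _
      rw [Fin.val_succ, mup_diag a.isLt]
    simp only [h0, h1, Finset.prod_const, Finset.card_univ, Fintype.card_fin]
    rw [Finset.prod_pow, ← mul_pow, Finset.prod_mul_distrib, Finset.prod_const, Finset.card_univ,
      Fintype.card_fin]
    unfold cnt
    congr 1
    ring
  · intro t q hne hh
    unfold limM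
    rw [Matrix.of_apply]
    by_cases hw : wt t.2 q.2 = 0
    · rw [hw, zero_mul, mul_zero]
    · have h2 : (q.2 : ℕ) ≤ t.2 := by
        rcases wt_ne hw with h3 | h3
        · rw [h3]
        · omega
      have h4 := t.2.isLt
      have h5 : (q.1 : ℕ) < t.1 := by
        by_contra hcon
        have h6 : (t.1 : ℕ) ≤ q.1 := Nat.le_of_not_lt hcon
        have hh' : (q.1 : ℕ) + (p - (q.2 : ℕ)) ≤ (t.1 : ℕ) + (p - (t.2 : ℕ)) := hh
        have h7 : (q.1 : ℕ) = t.1 := by omega
        have h8 : (q.2 : ℕ) = t.2 := by omega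
        exact hne (Prod.ext (Fin.ext h7) (Fin.ext h8))
      have h1 : t.1 ≠ 0 := by
        intro h9
        rw [h9] at h5
        simp at h5
      have h4' : (q.1 : ℕ) ≤ lp t := by
        unfold Pool.Agent.TH265.U.lp
        rw [if_neg h1]
        omega
      rw [if_neg h1, mup_eq_zero h4', mul_zero, mul_zero]

theorem cnt_pos {r : ℕ} (hr : 1 ≤ r) : 0 < cnt r := by
  unfold cnt
  have h1 : (0 : ℝ) < r := by exact_mod_cast hr
  exact mul_pos h1 (Finset.prod_pos fun a _ => by positivity)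

theorem exists_det_limit (p r : ℕ) (hr : 1 ≤ r) {ε : ℝ} (hε : 0 < ε) : ∃ c : ℝ, 1 < c ∧
    ∀ {K : Type v} [Field K] (σ τ : K →+* ℂ) (ζ e : K), IsPrimitiveRoot ζ (p + 1) →
      c ≤ ‖σ e‖ → ‖τ e‖ * c ≤ 1 →
      ∃ Γ : Fin (r + 1) × Fin p → Torus (Opn p r ζ e) 1,
        (∀ t θ x, (Γ t).e θ (cst0 p r ζ e x) = if t.1 = 0 then τ x else σ x) ∧
        |(Matrix.of fun t q => (Γ t).reg (symb (sym p r ζ e q))).det /
          ((2 * Real.pi) ^ (r + 1) * cnt r * |Real.log ‖τ e‖| * Real.log ‖σ e‖ ^ r) ^ p - 1| ≤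
          ε := by
  classical
  obtain ⟨L0, B0, hL0, hB0, h⟩ := exists_unif.{v} p r
  have hpi := Real.pi_pos
  have hcp := cnt_pos hr
  have hdpos : 0 < (limM p r).det := by
    rw [det_limM p r hr]
    positivity
  obtain ⟨δ, hδ, hdet⟩ := abs_det_near (limM p r) (ε := ε * (limM p r).det) (by positivity)
  set Λ : ℝ := L0 + 2 * B0 / δ + 1 with hΛ
  have hBδ : 0 ≤ 2 * B0 / δ := by positivity
  have hΛ1 : 1 ≤ Λ := by linarith
  have hΛB : B0 < δ * Λ := by
    have h1 : 2 * B0 / δ + 1 ≤ Λ := by linarith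
    have h2 : δ * (2 * B0 / δ + 1) ≤ δ * Λ := mul_le_mul_of_nonneg_left h1 hδ.le
    have h3 : δ * (2 * B0 / δ + 1) = 2 * B0 + δ := by field_simp
    linarith
  refine ⟨Real.exp Λ, by
    rw [← Real.exp_zero]
    exact Real.exp_lt_exp.2 (by linarith), ?_⟩
  intro K _ σ τ ζ e hζ hσ hτ
  have hσ0 : 0 < ‖σ e‖ := (Real.exp_pos Λ).trans_le hσ
  have he : e ≠ 0 := by
    rintro rfl
    rw [map_zero, norm_zero] at hσ0
    exact lt_irrefl _ hσ0
  have hσe : σ e ≠ 0 := (map_ne_zero σ).2 he
  have hτe : τ e ≠ 0 := (map_ne_zero τ).2 he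
  have hlσ : Λ ≤ Real.log ‖σ e‖ := by
    have := Real.log_le_log (Real.exp_pos Λ) hσ
    rwa [Real.log_exp] at this
  have hlτ : Real.log ‖τ e‖ ≤ -Λ := by
    have h1 : ‖τ e‖ ≤ Real.exp (-Λ) := by
      rw [Real.exp_neg, ← one_div, le_div_iff₀ (Real.exp_pos Λ)]
      exact hτ
    have := Real.log_le_log (norm_pos_iff.2 hτe) h1
    rwa [Real.log_exp] at this
  -- the place of a row
  set pl : Fin (r + 1) × Fin p → (K →+* ℂ) := fun t => if t.1 = 0 then τ else σ with hpl
  have hplL : ∀ t, Λ ≤ |Real.log ‖pl t e‖| := by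
    intro t
    simp only [hpl]
    split_ifs
    · rw [abs_of_nonpos (by linarith)]
      linarith
    · rw [abs_of_nonneg (by linarith)]
      exact hlσ
  have hlp : ∀ t : Fin (r + 1) × Fin p, lp t < r := by
    intro t
    unfold Pool.Agent.TH265.U.lp
    split_ifs with h1
    · omega
    · have := t.1.isLt
      have h2 : (t.1 : ℕ) ≠ 0 := fun h3 => h1 (Fin.ext h3)
      omega
  choose Γ hΓ1 hΓ2 using fun t : Fin (r + 1) × Fin p =>
    h (pl t) ζ e hζ he (by linarith [hplL t]) (lp t) (hlp t) t.2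
  refine ⟨Γ, ?_, ?_⟩
  · intro t θ x
    rw [hΓ1]
    simp only [hpl]
    split_ifs <;> rfl
  set L : Fin (r + 1) × Fin p → ℝ := fun t => |Real.log ‖pl t e‖| with hL
  have hLpos : ∀ t, 0 < L t := fun t => by linarith [hplL t]
  have hmt : ∀ t q : Fin (r + 1) × Fin p,
      2 * Real.pi * (wt t.2 q.2 * Mt (pl t e) r (lp t) q.1) = L t * limM p r t q := by
    intro t q
    unfold limM
    rw [Matrix.of_apply]
    by_cases h1 : t.1 = 0
    · have h2 : pl t = τ := by simp only [hpl]; rw [if_pos h1]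
      have h3 : lp t = r - 1 := by unfold Pool.Agent.TH265.U.lp; rw [if_pos h1]
      have h4 : L t = |Real.log ‖τ e‖| := by simp only [hL]; rw [h2]
      rw [h2, h3, if_pos h1, h4, Mt_neg' hτe (by linarith)]
      ring
    · have h2 : pl t = σ := by simp only [hpl]; rw [if_neg h1]
      have h4 : L t = Real.log ‖σ e‖ := by
        simp only [hL]
        rw [h2, abs_of_nonneg (by linarith)]
      rw [h2, if_neg h1, h4, Mt_pos' hσe (by linarith)]
      ring
  set M : Matrix (Fin (r + 1) × Fin p) (Fin (r + 1) × Fin p) ℝ :=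
    Matrix.of fun t q => (Γ t).reg (symb (sym p r ζ e q)) / L t with hM
  have hclose : ∀ t q, |M t q - limM p r t q| < δ := by
    intro t q
    have h1 := hΓ2 t q
    rw [hmt] at h1
    have h2 : M t q - limM p r t q =
        ((Γ t).reg (symb (sym p r ζ e q)) - L t * limM p r t q) / L t := by
      rw [hM, Matrix.of_apply, sub_div, mul_div_cancel_left₀ _ (hLpos t).ne']
    rw [h2, abs_div, abs_of_pos (hLpos t), div_lt_iff₀ (hLpos t)]
    refine h1.trans_lt (hΛB.trans_le ?_)
    exact mul_le_mul_of_nonneg_left (hplL t) hδ.le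
  have hfac : (Matrix.of fun t q => (Γ t).reg (symb (sym p r ζ e q))).det =
      (∏ t, L t) * M.det := by
    rw [← Matrix.det_mul_column]
    congr 1
    ext t q
    rw [Matrix.of_apply, Matrix.of_apply, hM, Matrix.of_apply, mul_div_cancel₀ _ (hLpos t).ne']
  have hprodL : ∏ t, L t = (|Real.log ‖τ e‖| * Real.log ‖σ e‖ ^ r) ^ p := by
    rw [Fintype.prod_prod_type, Fin.prod_univ_succ]
    have h0 : ∀ j : Fin p, L ((0 : Fin (r + 1)), j) = |Real.log ‖τ e‖| := by
      intro j
      simp only [hL, hpl]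
      rw [if_pos trivial]
    have h1 : ∀ (a : Fin r) (j : Fin p), L (a.succ, j) = Real.log ‖σ e‖ := by
      intro a j
      simp only [hL, hpl]
      rw [if_neg (Fin.succ_ne_zero a), abs_of_nonneg (by linarith)]
    simp only [h0, h1, Finset.prod_const, Finset.card_univ, Fintype.card_fin]
    rw [mul_pow, ← pow_mul, ← pow_mul, mul_comm p r]
  have hLP : 0 < (|Real.log ‖τ e‖| * Real.log ‖σ e‖ ^ r) ^ p := by
    rw [← hprodL]
    exact Finset.prod_pos fun t _ => hLpos t
  have hM2 := hdet M hclose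
  have e1 : (2 * Real.pi) ^ (r + 1) * cnt r * |Real.log ‖τ e‖| * Real.log ‖σ e‖ ^ r =
      ((2 * Real.pi) ^ (r + 1) * cnt r) * (|Real.log ‖τ e‖| * Real.log ‖σ e‖ ^ r) := by ring
  rw [hfac, hprodL, e1, mul_pow (_ * _) (_ * _) p, ← det_limM p r hr, mul_comm (limM p r).det,
    mul_div_mul_left _ _ hLP.ne']
  have e2 : M.det / (limM p r).det - 1 = (M.det - (limM p r).det) / (limM p r).det := by
    rw [sub_div, div_self hdpos.ne']
  rw [e2, abs_div, abs_of_pos hdpos, div_le_iff₀ hdpos]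
  exact hM2.le

end C

end Pool.Agent.X321.BL
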